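import Pool.Agent.H27.GC.Targets

/-! EVI: orders of the iterates. -/

set_option autoImplicit false

open Polynomial Finset Pool.Agent.H27.GC

namespace Pool.Agent.H27.GC.EVIM

theorem sup_nab {s D : ℕ} (b : Fin s → ℂ) (A : Vec s) (hA : Sup D A) : Sup D (nab b A) := by
  intro e he
  unfold nab
  rw [hA e he, derivative_zero, mul_zero, zero_add]
  refine Finset.sum_eq_zero fun k _ => ?_
  rw [hA (e + Pi.single k 1), mul_zero]
  have h1 : ∑ j, (e + Pi.single k 1 : Fin s → ℕ) j = ∑ j, e j + 1 := by
    simp only [Pi.add_apply, Finset.sum_add_distrib]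
    rw [Finset.sum_pi_single']
    simp
  have h2 : D < ∑ j, (e + Pi.single k 1 : Fin s → ℕ) j := by omega
  exact h2

theorem pf_EVI (hN : T_EVN) (_hS : T_SPD) : T_EVI := by
  intro s D T b A hA hX i
  have key : ∀ i, Sup D (nabI b i A) ∧
      (PowerSeries.X : PowerSeries ℂ) ^ (T - i) ∣ evf b D (nabI b i A) := by
    intro i
    induction i with
    | zero => exact ⟨hA, hX⟩
    | succ i ih =>
      have e : nabI b (i + 1) A = nab b (nabI b i A) := Function.iterate_succ_apply' _ _ _
      rw [e]
      refine ⟨sup_nab b _ ih.1, ?_⟩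
      rw [hN s D b _ ih.1]
      refine Dvd.dvd.mul_left ?_ _
      have h1 := PowerSeries.X_pow_dvd_iff.1 ih.2
      rw [PowerSeries.X_pow_dvd_iff]
      intro m hm
      rw [PowerSeries.coeff_derivative, h1 (m + 1) (by omega), zero_mul]
  exact (key i).2

end Pool.Agent.H27.GC.EVIM
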