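import Pool.Agent.H27.GC.Targets

/-! LCM: the least common multiple of the first `n` integers. -/

set_option autoImplicit false

open Polynomial Finset Pool.Agent.H27.GC

namespace Pool.Agent.H27.GC.LCMM

theorem pf_LCM : T_LCM := by
  intro n
  have h1 := Chebyshev.psi_eq_log_lcmUpto n
  have h2 := Chebyshev.psi_le_const_mul_self (x := n) (Nat.cast_nonneg n)
  rw [h1] at h2
  have hpos : (0 : ℝ) < Nat.lcmUpto n := by exact_mod_cast Nat.lcmUpto_pos n
  have h3 : (Nat.lcmUpto n : ℝ) ≤ Real.exp ((Real.log 4 + 4) * n) := by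
    rw [← Real.log_le_iff_le_exp hpos]
    exact h2
  refine h3.trans ?_
  have h4 : Real.exp ((Real.log 4 + 4) * n) = (Real.exp (Real.log 4 + 4)) ^ n := by
    rw [← Real.exp_nat_mul]
    congr 1
    ring
  rw [h4]
  refine pow_le_pow_left₀ (Real.exp_pos _).le ?_ n
  rw [Real.exp_add, Real.exp_log (by norm_num)]
  have h5 : Real.exp 4 = Real.exp 1 ^ 4 := by
    rw [← Real.exp_nat_mul]
    congr 1
    norm_num
  rw [h5]
  have h6 := Real.exp_one_lt_d9
  have h7 : Real.exp 1 ^ 4 ≤ (2.7182818286 : ℝ) ^ 4 :=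
    pow_le_pow_left₀ (Real.exp_pos _).le h6.le 4
  have h8 : (2.7182818286 : ℝ) ^ 4 ≤ 219 / 4 := by norm_num
  linarith

end Pool.Agent.H27.GC.LCMM
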