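import Pool.Agent.H27.GC.Targets

/-! Board psv_modules, module LEI: Leibniz rule and additivity. -/

set_option autoImplicit false

open Polynomial Finset Pool.Agent.H27.GC

namespace Pool.Agent.H27.GC.LEIM

theorem pf_LEI : T_LEI := by
  intro s b g A B
  constructor
  · funext e
    unfold nab
    rw [derivative_mul, mul_add, mul_add, Finset.mul_sum, ← add_assoc]
    congr 1
    · ring
    · refine Finset.sum_congr rfl fun k _ => ?_
      ring
  · funext e
    unfold nab
    simp only [Pi.add_apply, derivative_add, mul_add, Finset.sum_add_distrib]
    ring

end Pool.Agent.H27.GC.LEIM
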