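import Pool.Agent.H27.GC.Targets

set_option autoImplicit false

open Polynomial Finset Pool.Agent.H27.GC

namespace Pool.Agent.H27.GC.ONEM

lemma sum_add_single {s : ℕ} (e : Fin s → ℕ) (k : Fin s) :
    ∑ j, (e + Pi.single k 1 : Fin s → ℕ) j = ∑ j, e j + 1 := by
  simp [Finset.sum_add_distrib]

theorem pf_ONE (h1 : T_LEI) (h2 : T_PL1) (h3 : T_PL2) : T_ONE := by
  classical
  intro s D b hb hb0 W hS hst hW
  obtain ⟨w₀, hw₀, hw₀0⟩ := Submodule.exists_mem_ne_zero_of_ne_bot hW
  -- minimal degree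
  have hP : ∃ t : ℕ, ∃ w ∈ W, w ≠ 0 ∧ ∀ e, t < ∑ k, e k → w e = 0 :=
    ⟨D, w₀, hw₀, hw₀0, hS w₀ hw₀⟩
  obtain ⟨t, ht, htmin⟩ : ∃ t : ℕ, (∃ w ∈ W, w ≠ 0 ∧ ∀ e, t < ∑ k, e k → w e = 0) ∧
      ∀ t' < t, ¬ ∃ w ∈ W, w ≠ 0 ∧ ∀ e, t' < ∑ k, e k → w e = 0 :=
    ⟨Nat.find hP, Nat.find_spec hP, fun t' h => Nat.find_min hP h⟩
  let num : Vec s → ℕ := fun w => ((II s D).filter (fun e => ∑ k, e k = t ∧ w e ≠ 0)).card
  have hQ : ∃ n : ℕ, ∃ w ∈ W, w ≠ 0 ∧ (∀ e, t < ∑ k, e k → w e = 0) ∧ num w = n := by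
    obtain ⟨w, hw, hw0, hwt⟩ := ht
    exact ⟨_, w, hw, hw0, hwt, rfl⟩
  obtain ⟨n, ⟨w, hw, hw0, hwt, hwn⟩, hnmin⟩ : ∃ n : ℕ,
      (∃ w ∈ W, w ≠ 0 ∧ (∀ e, t < ∑ k, e k → w e = 0) ∧ num w = n) ∧
      ∀ n' < n, ¬ ∃ w ∈ W, w ≠ 0 ∧ (∀ e, t < ∑ k, e k → w e = 0) ∧ num w = n' :=
    ⟨Nat.find hQ, Nat.find_spec hQ, fun t' h => Nat.find_min hQ h⟩
  -- a nonzero coefficient of top degree
  obtain ⟨e0, he0t, he0⟩ : ∃ e0 : Fin s → ℕ, ∑ k, e0 k = t ∧ w e0 ≠ 0 := by
    by_contra hcon
    push Not at hcon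
    rcases Nat.eq_zero_or_pos t with h0 | h0
    · apply hw0
      funext e
      rcases Nat.eq_zero_or_pos (∑ k, e k) with h | h
      · exact hcon e (by omega)
      · exact hwt e (by omega)
    · refine htmin (t - 1) (by omega) ⟨w, hw, hw0, fun e he => ?_⟩
      rcases Nat.lt_or_ge t (∑ k, e k) with h | h
      · exact hwt e h
      · exact hcon e (by omega)
  set a := w e0 with ha
  -- the combination
  let u : Vec s := a • nab b w - (th b * derivative a) • w
  have hu : u ∈ W := sub_mem (W.smul_mem _ (hst w hw)) (W.smul_mem _ hw)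
  have hue : ∀ e, u e = a * nab b w e - th b * derivative a * w e := fun e => rfl
  have hnab : ∀ e, t ≤ ∑ k, e k → nab b w e = th b * derivative (w e) := by
    intro e he
    unfold nab
    have : ∀ k, w (e + Pi.single k 1) = 0 := by
      intro k
      apply hwt
      rw [sum_add_single]
      omega
    simp [this]
  have hu1 : ∀ e, t < ∑ k, e k → u e = 0 := by
    intro e he
    rw [hue, hnab e he.le, hwt e he]
    simp
  have hu2 : ∀ e, ∑ k, e k = t → w e = 0 → u e = 0 := by
    intro e he hwe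
    rw [hue, hnab e he.ge, hwe]
    simp
  have hu3 : u e0 = 0 := by
    rw [hue, hnab e0 he0t.ge, ← ha]
    ring
  have hu0 : u = 0 := by
    by_contra hne
    refine hnmin (num u) ?_ ⟨u, hu, hne, hu1, rfl⟩
    rw [← hwn]
    apply Finset.card_lt_card
    rw [Finset.ssubset_iff_of_subset]
    · refine ⟨e0, ?_, ?_⟩
      · rw [Finset.mem_filter]
        refine ⟨?_, he0t, he0⟩
        by_contra hcon
        apply he0
        apply hS w hw
        by_contra hle
        apply hcon
        unfold II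
        rw [Finset.mem_filter]
        refine ⟨?_, by omega⟩
        rw [Fintype.mem_piFinset]
        intro k
        rw [Finset.mem_range]
        have : e0 k ≤ ∑ k, e0 k := Finset.single_le_sum (fun _ _ => Nat.zero_le _) (mem_univ k)
        omega
      · rw [Finset.mem_filter]
        rintro ⟨-, -, h⟩
        exact h hu3
    · intro e he
      rw [Finset.mem_filter] at he ⊢
      refine ⟨he.1, he.2.1, fun h => he.2.2 (hu2 e he.2.1 h)⟩
  have hth : th b ≠ 0 := by
    unfold th
    rw [Finset.prod_ne_zero_iff]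
    intro k _ h
    have := congrArg (fun p : ℂ[X] => p.coeff 0) h
    simp at this
  -- proportionality in top degree
  have hprop : ∀ e, ∑ k, e k = t → ∃ c : ℂ, w e = C c * a := by
    intro e he
    have h4 : u e = 0 := by rw [hu0]; rfl
    rw [hue, hnab e he.ge] at h4
    apply h2 a (w e) he0
    have h5 : th b * (a * derivative (w e) - derivative a * w e) = 0 := by
      rw [← h4]; ring
    rcases mul_eq_zero.1 h5 with h6 | h6
    · exact absurd h6 hth
    · exact sub_eq_zero.1 h6
  rcases Nat.eq_zero_or_pos t with h0 | h0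
  · -- degree zero
    have he00 : e0 = 0 := by
      funext k
      have : e0 k ≤ ∑ k, e0 k := Finset.single_le_sum (fun _ _ => Nat.zero_le _) (mem_univ k)
      have h6 : e0 k = 0 := by omega
      exact h6
    refine ⟨a, he0, ?_⟩
    have h7 : (fun e : Fin s → ℕ => if e = 0 then a else 0) = w := by
      funext e
      by_cases he : e = 0
      · rw [if_pos he, he, ha, he00]
      · rw [if_neg he]
        symm
        apply hwt
        rw [h0]
        by_contra hcon
        apply he
        funext k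
        have : e k ≤ ∑ k, e k := Finset.single_le_sum (fun _ _ => Nat.zero_le _) (mem_univ k)
        have h6 : e k = 0 := by omega
        exact h6
    rw [h7]
    exact hw
  · -- positive degree is impossible
    exfalso
    obtain ⟨k, -, hk⟩ : ∃ k ∈ (univ : Finset (Fin s)), e0 k ≠ 0 := by
      apply Finset.exists_ne_zero_of_sum_ne_zero
      omega
    let e1 : Fin s → ℕ := fun j => if j = k then e0 k - 1 else e0 j
    have he1 : e1 + Pi.single k 1 = e0 := by
      funext j
      by_cases hj : j = k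
      · subst hj
        simp only [Pi.add_apply, Pi.single_eq_same, e1, if_true]
        omega
      · simp [e1, hj]
    have he1t : ∑ j, e1 j + 1 = t := by
      rw [← sum_add_single e1 k, he1, he0t]
    have hc : ∀ j, ∃ c : ℂ, w (e1 + Pi.single j 1) = C c * a := by
      intro j
      apply hprop
      rw [sum_add_single, he1t]
    choose c hc using hc
    have h4 : u e1 = 0 := by rw [hu0]; rfl
    rw [hue] at h4
    have h5 : nab b w e1 = th b * derivative (w e1) +
        ∑ j, thk b j * ((e1 j + 1 : ℕ) : ℂ[X]) * (C (c j) * a) := by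
      unfold nab
      congr 1
      refine Finset.sum_congr rfl fun j _ => ?_
      rw [hc j]
    rw [h5] at h4
    have h6 : th b * (a * derivative (w e1) - derivative a * w e1) =
        a ^ 2 * ∑ j, C (-((e1 j + 1 : ℕ) : ℂ) * c j) * thk b j := by
      have h7 : a ^ 2 * ∑ j, C (-((e1 j + 1 : ℕ) : ℂ) * c j) * thk b j =
          - (a * ∑ j, thk b j * ((e1 j + 1 : ℕ) : ℂ[X]) * (C (c j) * a)) := by
        rw [Finset.mul_sum, Finset.mul_sum, ← Finset.sum_neg_distrib]
        refine Finset.sum_congr rfl fun j _ => ?_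
        rw [C_mul, C_neg, C_eq_natCast]
        ring
      rw [h7]
      linear_combination h4
    have h8 := h3 s b hb hb0 a (w e1) (fun j => -((e1 j + 1 : ℕ) : ℂ) * c j) he0 h6 k
    have h9 : c k = 0 := by
      rcases mul_eq_zero.1 h8 with h | h
      · exfalso
        have h10 : ((e1 k + 1 : ℕ) : ℂ) = 0 := neg_eq_zero.1 h
        have h11 : (e1 k + 1 : ℕ) = 0 := by exact_mod_cast h10
        omega
      · exact h
    have h10 := hc k
    rw [he1, h9, C_0, zero_mul] at h10
    exact he0 h10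

end Pool.Agent.H27.GC.ONEM
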