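import Pool.Agent.H27.GC.Targets

/-!
# PL1: polynomials with the same logarithmic derivative
-/

set_option autoImplicit false

open Polynomial Finset Pool.Agent.H27.GC

namespace Pool.Agent.H27.GC.PL1M

theorem pf_PL1 : T_PL1 := by
  intro a w ha h
  obtain ⟨a₁, w₁, hcop, hd⟩ : ∃ a₁ w₁ : ℂ[X], IsCoprime a₁ w₁ ∧
      a = EuclideanDomain.gcd a w * a₁ ∧ w = EuclideanDomain.gcd a w * w₁ := by
    have hg : EuclideanDomain.gcd a w ≠ 0 := fun h0 => ha (EuclideanDomain.gcd_eq_zero_iff.1 h0).1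
    obtain ⟨a₁, h1⟩ := EuclideanDomain.gcd_dvd_left a w
    obtain ⟨w₁, h2⟩ := EuclideanDomain.gcd_dvd_right a w
    refine ⟨a₁, w₁, ?_, h1, h2⟩
    obtain ⟨x, y, hxy⟩ : ∃ x y, EuclideanDomain.gcd a w = a * x + w * y :=
      ⟨_, _, EuclideanDomain.gcd_eq_gcd_ab a w⟩
    refine ⟨x, y, ?_⟩
    apply mul_left_cancel₀ hg
    calc EuclideanDomain.gcd a w * (x * a₁ + y * w₁)
        = (EuclideanDomain.gcd a w * a₁) * x + (EuclideanDomain.gcd a w * w₁) * y := by ring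
      _ = EuclideanDomain.gcd a w * 1 := by rw [← h1, ← h2, ← hxy, mul_one]
  generalize EuclideanDomain.gcd a w = g at hd
  obtain ⟨rfl, rfl⟩ := hd
  have hg : g ≠ 0 := left_ne_zero_of_mul ha
  have ha₁ : a₁ ≠ 0 := right_ne_zero_of_mul ha
  have hw : wronskian a₁ w₁ = 0 := by
    have h1 : g ^ 2 * (a₁ * derivative w₁ - derivative a₁ * w₁) = 0 := by
      rw [derivative_mul, derivative_mul] at h
      linear_combination h
    rcases mul_eq_zero.1 h1 with h2 | h2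
    · exact absurd (pow_eq_zero_iff (by norm_num) |>.1 h2) hg
    · exact h2
  obtain ⟨h1, h2⟩ := hcop.wronskian_eq_zero_iff.1 hw
  have e1 := eq_C_of_derivative_eq_zero h1
  have e2 := eq_C_of_derivative_eq_zero h2
  have hc : a₁.coeff 0 ≠ 0 := by
    intro h0
    rw [h0, C_0] at e1
    exact ha₁ e1
  refine ⟨w₁.coeff 0 / a₁.coeff 0, ?_⟩
  rw [e1, e2]
  simp only [coeff_C_zero]
  rw [mul_left_comm, ← C_mul, div_mul_cancel₀ _ hc]

end Pool.Agent.H27.GC.PL1M
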