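import Pool.Agent.H27.GC.Targets

/-! SPF: the zero estimate. -/

set_option autoImplicit false

open Polynomial Finset Pool.Agent.H27.GC

namespace Pool.Agent.H27.GC.SPFM

theorem pf_SPF (h1 : T_RNK) (h2 : T_DDV) (h3 : T_SPZ) : T_SPF := by
  intro s D m T b hb hb0 A z0 hz0 hth hSup hDeg hA hX hT Λ hΛ
  have hDt := h1 s D m T b hb hb0 A hSup hDeg hA hX hT
  obtain ⟨hdeg, hdvd⟩ := h2 s D m T b A hSup hDeg hX
  have hroot : (X - C z0) ^ rootMultiplicity z0 (Dt b D A) ∣ Dt b D A :=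
    Polynomial.pow_rootMultiplicity_dvd _ _
  have hcop : IsCoprime ((X : ℂ[X]) ^ (T + 1 - MM s D))
      ((X - C z0) ^ rootMultiplicity z0 (Dt b D A)) := by
    refine IsCoprime.pow ?_
    have h4 : IsCoprime (X - C (0 : ℂ)) (X - C z0) :=
      Polynomial.isCoprime_X_sub_C_of_isUnit_sub (by
        rw [zero_sub]
        exact (neg_ne_zero.2 hz0).isUnit)
    rwa [C_0, sub_zero] at h4
  have h5 := Polynomial.natDegree_le_of_dvd (hcop.mul_dvd hdvd hroot) hDt
  have h6 : ((X : ℂ[X]) ^ (T + 1 - MM s D) *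
      (X - C z0) ^ rootMultiplicity z0 (Dt b D A)).natDegree =
        (T + 1 - MM s D) + rootMultiplicity z0 (Dt b D A) := by
    rw [Polynomial.natDegree_mul (pow_ne_zero _ X_ne_zero)
      (pow_ne_zero _ (X_sub_C_ne_zero z0)), natDegree_X_pow, natDegree_pow,
      natDegree_X_sub_C, mul_one]
  rw [h6] at h5
  refine h3 s D b A z0 hSup hth hDt Λ fun i hi => hΛ i ?_
  have h7 := h5.trans hdeg
  omega

end Pool.Agent.H27.GC.SPFM
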