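import Pool.Agent.H27.GC.Targets

/-! TAM: Taylor series of products. -/

set_option autoImplicit false

open Polynomial Finset Pool.Agent.H27.GC

namespace Pool.Agent.H27.GC.TAMM

theorem pf_TAM : T_TAM := by
  intro z0 F G hF hG
  constructor
  · ext j
    rw [PowerSeries.coeff_mul]
    unfold Tay
    simp only [PowerSeries.coeff_mk]
    rw [iteratedDeriv_mul (hF.contDiffAt) (hG.contDiffAt),
      Finset.Nat.sum_antidiagonal_eq_sum_range_succ (fun a b => iteratedDeriv a F z0 /
        (a.factorial : ℂ) * (iteratedDeriv b G z0 / (b.factorial : ℂ))), Finset.sum_div]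
    refine Finset.sum_congr rfl fun i hi => ?_
    have hij : i ≤ j := Nat.lt_succ_iff.1 (Finset.mem_range.1 hi)
    have h1 : ((j.choose i : ℕ) : ℂ) * (i.factorial : ℂ) * ((j - i).factorial : ℂ) =
        (j.factorial : ℂ) := by exact_mod_cast Nat.choose_mul_factorial_mul_factorial hij
    have hj : (j.factorial : ℂ) ≠ 0 := by exact_mod_cast (Nat.factorial_pos j).ne'
    have hi' : (i.factorial : ℂ) ≠ 0 := by exact_mod_cast (Nat.factorial_pos i).ne'
    have hji : ((j - i).factorial : ℂ) ≠ 0 := by exact_mod_cast (Nat.factorial_pos _).ne'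
    rw [div_mul_div_comm, div_eq_div_iff hj (mul_ne_zero hi' hji), ← h1]
    ring
  · ext j
    rw [map_add]
    unfold Tay
    simp only [PowerSeries.coeff_mk]
    rw [iteratedDeriv_add (hF.contDiffAt) (hG.contDiffAt), add_div]

end Pool.Agent.H27.GC.TAMM
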